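import Pool.Agent.W391.BGR.Stm

/-! Project BGR: local confluence. -/

set_option autoImplicit false

namespace Pool.Agent.W403.BGRLC

open Pool.Agent.W391.BGR

/-- the rules as a list -/
def L : List (Wd × Wd) :=
  [([0, 1], []), ([1, 0], []), ([4, 5], []), ([5, 4], []), ([4, 0], [0, 4, 4]),
    ([5, 0], [0, 5, 5]), ([4, 4, 1], [1, 4]), ([5, 1], [4, 1, 5]),
    ([2, 3], []), ([3, 2], []), ([3, 0], [0, 0, 3]), ([3, 1], [1, 1, 3]), ([2, 0, 0], [0, 2]),
    ([2, 1], [1, 2, 0]),
    ([6, 7], []), ([7, 6], []), ([6, 0], [4, 6]), ([6, 1], [5, 6]), ([6, 2], [0, 6]),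
    ([6, 3], [1, 6]), ([7, 4], [0, 7]), ([7, 5], [1, 7]), ([7, 0], [2, 7]), ([7, 1], [3, 7])]

theorem mem_L (p : Wd × Wd) : p ∈ RR ↔ p ∈ L := by
  unfold RR RA RB RT L
  simp only [Finset.mem_union, Finset.mem_insert, Finset.mem_singleton, List.mem_cons,
    List.not_mem_nil, or_false, or_assoc]

/-- a rule at the beginning -/
def hd (w : Wd) : Option Wd :=
  L.findSome? fun p => if p.1 <+: w then some (p.2 ++ w.drop p.1.length) else none

theorem hd_spec {w r : Wd} (h : hd w = some r) : St RR w r := by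
  unfold hd at h
  obtain ⟨p, hp, hr⟩ := List.exists_of_findSome?_eq_some h
  split_ifs at hr with hpre
  obtain ⟨s, rfl⟩ := hpre
  rw [List.drop_left, Option.some.injEq] at hr
  refine ⟨[], s, p, (mem_L p).2 hp, by simp, by simp [← hr]⟩

/-- the leftmost rule -/
def step : Wd → Option Wd
  | [] => none
  | c :: w => match hd (c :: w) with
    | some r => some r
    | none => (step w).map (c :: ·)

theorem step_spec : ∀ {w r : Wd}, step w = some r → St RR w r
  | [], r, h => by simp [step] at h
  | c :: w, r, h => by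
    unfold step at h
    split at h
    · rename_i r' hr'
      rw [Option.some.injEq] at h
      rw [← h]
      exact hd_spec hr'
    · rw [Option.map_eq_some_iff] at h
      obtain ⟨r', hr', rfl⟩ := h
      obtain ⟨x, y, p, hp, h1, h2⟩ := step_spec hr'
      exact ⟨c :: x, y, p, hp, by rw [h1]; rfl, by rw [h2]; rfl⟩

/-- the normaliser -/
def nf : ℕ → Wd → Wd
  | 0, w => w
  | k + 1, w => match step w with
    | some r => nf k r
    | none => w

theorem nf_spec (k : ℕ) (w : Wd) : Relation.ReflTransGen (St RR) w (nf k w) := by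
  induction k generalizing w with
  | zero => exact Relation.ReflTransGen.refl
  | succ k ih =>
    unfold nf
    split
    · rename_i r hr
      exact Relation.ReflTransGen.head (step_spec hr) (ih r)
    · exact Relation.ReflTransGen.refl

theorem ctx {u v : Wd} (h : Relation.ReflTransGen (St RR) u v) (x y : Wd) :
    Relation.ReflTransGen (St RR) (x ++ u ++ y) (x ++ v ++ y) := by
  induction h with
  | refl => exact Relation.ReflTransGen.refl
  | tail _ hb ih =>
    obtain ⟨x', y', p, hp, rfl, rfl⟩ := hb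
    exact ih.tail ⟨x ++ x', y' ++ y, p, hp, by simp, by simp⟩

theorem join_ctx {u v : Wd} {k : ℕ} (h : nf k u = nf k v) (x y : Wd) :
    Relation.Join (Relation.ReflTransGen (St RR)) (x ++ u ++ y) (x ++ v ++ y) :=
  ⟨x ++ nf k u ++ y, ctx (nf_spec k u) x y, by rw [h]; exact ctx (nf_spec k v) x y⟩

theorem chk1 : ∀ p ∈ L, ∀ q ∈ L, ∀ i ∈ List.range p.1.length,
    p.1.drop i <+: q.1 →
      nf 16 (p.2 ++ q.1.drop (p.1.drop i).length) = nf 16 (p.1.take i ++ q.2) := by
  decide +kernel

theorem chk2 : ∀ p ∈ L, ∀ q ∈ L, ∀ i ∈ List.range p.1.length,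
    q.1 <+: p.1.drop i →
      nf 16 p.2 = nf 16 (p.1.take i ++ q.2 ++ (p.1.drop i).drop q.1.length) := by
  decide +kernel

theorem half {x y x' y' : Wd} {p q : Wd × Wd} (hp : p ∈ RR) (hq : q ∈ RR) {s : Wd}
    (hs : x' = x ++ s) (h : x ++ p.1 ++ y = x' ++ q.1 ++ y') :
    Relation.Join (Relation.ReflTransGen (St RR)) (x ++ p.2 ++ y) (x' ++ q.2 ++ y') := by
  subst hs
  have h1 : p.1 ++ y = s ++ (q.1 ++ y') := by
    have : x ++ (p.1 ++ y) = x ++ (s ++ (q.1 ++ y')) := by simpa using h
    exact List.append_cancel_left this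
  rcases List.append_eq_append_iff.1 h1 with ⟨s', e1, e2⟩ | ⟨r, e1, e2⟩
  · -- disjoint
    refine ⟨x ++ p.2 ++ s' ++ q.2 ++ y', ?_, ?_⟩
    · refine Relation.ReflTransGen.single ⟨x ++ p.2 ++ s', y', q, hq, ?_, ?_⟩
      · rw [e2]; simp
      · simp
    · refine Relation.ReflTransGen.single ⟨x, s' ++ q.2 ++ y', p, hp, ?_, ?_⟩
      · rw [e1]; simp
      · simp
  · -- overlap: `p.1 = s ++ r`
    by_cases hr : r = []
    · subst hr
      rw [List.append_nil] at e1
      rw [List.nil_append] at e2
      refine ⟨x ++ p.2 ++ q.2 ++ y', ?_, ?_⟩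
      · refine Relation.ReflTransGen.single ⟨x ++ p.2, y', q, hq, ?_, ?_⟩
        · rw [← e2]; simp
        · simp
      · refine Relation.ReflTransGen.single ⟨x, q.2 ++ y', p, hp, ?_, ?_⟩
        · rw [← e1]; simp
        · simp
    · have hlen : s.length < p.1.length := by
        rw [e1, List.length_append]
        have := List.length_pos_iff.2 hr
        omega
      have hi : s.length ∈ List.range p.1.length := List.mem_range.2 hlen
      have hd : p.1.drop s.length = r := by rw [e1, List.drop_left]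
      have ht : p.1.take s.length = s := by rw [e1, List.take_left]
      have hp' := (mem_L p).1 hp
      have hq' := (mem_L q).1 hq
      rcases List.append_eq_append_iff.1 e2 with ⟨z, f1, f2⟩ | ⟨z, f1, f2⟩
      · -- `r = q.1 ++ z`
        have k := chk2 p hp' q hq' s.length hi (by rw [hd, f1]; exact List.prefix_append _ _)
        rw [hd, ht, f1, List.drop_left] at k
        have k2 := join_ctx k x y
        rw [f2]
        simpa using k2
      · -- `q.1 = r ++ z`
        have k := chk1 p hp' q hq' s.length hi (by rw [hd, f1]; exact List.prefix_append _ _)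
        rw [hd, ht, f1, List.drop_left] at k
        have k2 := join_ctx k x y'
        rw [f2]
        simpa using k2

theorem main : LC := by
  rintro u v w ⟨x, y, p, hp, rfl, rfl⟩ ⟨x', y', q, hq, h, rfl⟩
  have h' : x ++ (p.1 ++ y) = x' ++ (q.1 ++ y') := by simpa using h
  rcases List.append_eq_append_iff.1 h' with ⟨s, e1, -⟩ | ⟨s, e1, -⟩
  · exact half hp hq e1 h
  · obtain ⟨z, h1, h2⟩ := half hq hp e1 h.symm
    exact ⟨z, h2, h1⟩

end Pool.Agent.W403.BGRLC
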