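import Pool.Agent.W960.HC.Defs

/-! Project HC, part C: the half return map and isolated closed orbits. -/

set_option autoImplicit false

open Set Topology Filter MeasureTheory

namespace Pool.Agent.W403.HC

open Pool.Agent.W960.HC

lemma fld_smooth (a c ε : ℝ) : ContDiff ℝ 1 (fld a c ε) := by
  unfold fld
  fun_prop

lemma fld_odd (a c ε : ℝ) (p : ℝ × ℝ) : fld a c ε (-p) = -fld a c ε p := by
  unfold fld
  ext
  · simp
  · simp
    ring

lemma loc_uniq {V : ℝ × ℝ → ℝ × ℝ} (hV : ContDiff ℝ 1 V) {f g : ℝ → ℝ × ℝ} {t : ℝ}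
    (hf : ∀ᶠ s in 𝓝 t, HasDerivAt f (V (f s)) s) (hg : ∀ᶠ s in 𝓝 t, HasDerivAt g (V (g s)) s)
    (h : f t = g t) : f =ᶠ[𝓝 t] g := by
  obtain ⟨K, S, hS, hL⟩ := (hV.contDiffAt (x := f t)).exists_lipschitzOnWith
  have cf : ContinuousAt f t := hf.self_of_nhds.continuousAt
  have cg : ContinuousAt g t := hg.self_of_nhds.continuousAt
  refine ODE_solution_unique_of_eventually (v := fun _ => V) (s := fun _ => S) (K := K)
    (Eventually.of_forall fun _ => hL) ?_ ?_ h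
  · exact hf.and (cf hS)
  · exact hg.and (cg (by rw [← h]; exact hS))

lemma cont_uniq {V : ℝ × ℝ → ℝ × ℝ} (hV : ContDiff ℝ 1 V) {f g : ℝ → ℝ × ℝ}
    (cf : Continuous f) (cg : Continuous g) {α β t₀ : ℝ} (ht₀ : t₀ ∈ Icc α β)
    (h0 : f t₀ = g t₀)
    (hloc : ∀ t ∈ Icc α β, f t = g t → (∀ᶠ s in 𝓝 t, HasDerivAt f (V (f s)) s) ∧
      ∀ᶠ s in 𝓝 t, HasDerivAt g (V (g s)) s) : ∀ t ∈ Icc α β, f t = g t := by
  have hsub : Icc α β ⊆ interior {t | f t = g t} := by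
    apply isPreconnected_Icc.subset_of_closure_inter_subset isOpen_interior
    · refine ⟨t₀, ht₀, ?_⟩
      rw [mem_interior_iff_mem_nhds]
      exact loc_uniq hV (hloc t₀ ht₀ h0).1 (hloc t₀ ht₀ h0).2 h0
    · rintro t ⟨h1, h2⟩
      have h3 : f t = g t := by
        have hc : IsClosed {t | f t = g t} := isClosed_eq cf cg
        exact hc.closure_subset_iff.2 interior_subset h1
      rw [mem_interior_iff_mem_nhds]
      exact loc_uniq hV (hloc t h2 h3).1 (hloc t h2 h3).2 h3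
  intro t ht
  exact interior_subset (s := {t | f t = g t}) (hsub ht)

lemma neg_closed {a c ε : ℝ} {D : Set (ℝ × ℝ)} (hD : D ∈ Closed (fld a c ε)) :
    {z : ℝ × ℝ | -z ∈ D} ∈ Closed (fld a c ε) := by
  obtain ⟨γ, T, hT, hγ, hper, ⟨t, ht⟩, rfl⟩ := hD
  refine ⟨fun t => -γ t, T, hT, fun t => ?_, fun t => ?_, ⟨t, fun h => ht (neg_injective h)⟩, ?_⟩
  · show HasDerivAt (fun t => -γ t) (fld a c ε (-γ t)) t
    rw [fld_odd]
    exact (hγ t).neg
  · show -γ (t + T) = -γ t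
    rw [hper]
  · ext z
    constructor
    · rintro ⟨s, hs⟩
      exact ⟨s, by show -γ s = z; rw [hs, neg_neg]⟩
    · rintro ⟨s, hs⟩
      exact ⟨s, by rw [← hs]; simp⟩

lemma closed_eq {a c ε : ℝ} {D D' : Set (ℝ × ℝ)} (hD : D ∈ Closed (fld a c ε))
    (hD' : D' ∈ Closed (fld a c ε)) {z : ℝ × ℝ} (hz : z ∈ D) (hz' : z ∈ D') : D = D' := by
  obtain ⟨γ, T, hT, hγ, hper, -, rfl⟩ := hD
  obtain ⟨γ', T', hT', hγ', hper', -, rfl⟩ := hD'
  obtain ⟨s, hs⟩ := hz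
  obtain ⟨s', hs'⟩ := hz'
  have c1 : Continuous γ := continuous_iff_continuousAt.2 fun t => (hγ t).continuousAt
  have c2 : Continuous γ' := continuous_iff_continuousAt.2 fun t => (hγ' t).continuousAt
  have key : ∀ t, γ (t + s) = γ' (t + s') := by
    intro t
    refine cont_uniq (fld_smooth a c ε) (f := fun t => γ (t + s)) (g := fun t => γ' (t + s'))
      (by fun_prop) (by fun_prop) (α := -|t|) (β := |t|) (t₀ := 0)
      ⟨by linarith [abs_nonneg t], abs_nonneg t⟩ (by simp [hs, hs']) ?_ t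
      ⟨neg_abs_le t, le_abs_self t⟩
    intro u _ _
    exact ⟨Eventually.of_forall fun v => (hγ (v + s)).comp_add_const v s,
      Eventually.of_forall fun v => (hγ' (v + s')).comp_add_const v s'⟩
  ext w
  constructor
  · rintro ⟨t, rfl⟩
    exact ⟨t - s + s', by rw [← key]; congr 1; ring⟩
  · rintro ⟨t, rfl⟩
    exact ⟨t - s' + s, by rw [key]; congr 1; ring⟩

lemma closed_isClosed {a c ε : ℝ} {D : Set (ℝ × ℝ)} (hD : D ∈ Closed (fld a c ε)) :
    IsClosed D := by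
  obtain ⟨γ, T, hT, hγ, hper, -, rfl⟩ := hD
  have c1 : Continuous γ := continuous_iff_continuousAt.2 fun t => (hγ t).continuousAt
  have hp : Function.Periodic γ T := hper
  exact (hp.compact_of_continuous hT.ne' c1).isClosed

section flow

variable {a c R : ℝ} {Z : ℝ → ℝ × ℝ → ℝ → ℝ × ℝ} {W : ℝ → ℝ × ℝ → ℝ → ℝ}

lemma contZ (h : Flw a c R Z W) (ε : ℝ) : Continuous (fun q : ℝ × (ℝ × ℝ) => Z q.1 q.2 ε) := by
  have h1 := h.smZ.continuous
  exact h1.comp (by fun_prop : Continuous (fun q : ℝ × (ℝ × ℝ) => (q.1, q.2, ε)))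

lemma contZt (h : Flw a c R Z W) (ε : ℝ) (v : ℝ × ℝ) : Continuous (fun t => Z t v ε) :=
  (contZ h ε).comp (by fun_prop : Continuous (fun t : ℝ => (t, v)))

lemma contZv (h : Flw a c R Z W) (ε t : ℝ) : Continuous (fun v => Z t v ε) :=
  (contZ h ε).comp (by fun_prop : Continuous (fun v : ℝ × ℝ => (t, v)))

lemma evder (h : Flw a c R Z W) {ε : ℝ} (hε : |ε| < 1) {v : ℝ × ℝ} {t : ℝ}
    (hb : ‖Z t v ε‖ < R) :
    ∀ᶠ s in 𝓝 t, HasDerivAt (fun s => Z s v ε) (fld a c ε (Z s v ε)) s := by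
  have hc : Continuous (fun s => ‖Z s v ε‖) := (contZt h ε v).norm
  filter_upwards [hc.continuousAt.eventually_lt continuousAt_const hb] with s hs
  exact h.der v ε s hs hε

lemma follow (h : Flw a c R Z W) {ε : ℝ} (hε : |ε| < 1) {D : Set (ℝ × ℝ)}
    (hD : D ∈ Closed (fld a c ε)) {v : ℝ × ℝ} {α β t₀ : ℝ} (ht₀ : t₀ ∈ Icc α β)
    (hb : ∀ t ∈ Icc α β, ‖Z t v ε‖ < R) (h0 : Z t₀ v ε ∈ D) : ∀ t ∈ Icc α β, Z t v ε ∈ D := by
  obtain ⟨γ, T, hT, hγ, hper, hnc, rfl⟩ := hD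
  obtain ⟨s, hs⟩ := h0
  have c1 : Continuous γ := continuous_iff_continuousAt.2 fun t => (hγ t).continuousAt
  have key := cont_uniq (fld_smooth a c ε) (f := fun t => Z t v ε)
    (g := fun t => γ (t - t₀ + s)) (contZt h ε v) (by fun_prop) ht₀ (by simp [hs]) (by
      intro t ht _
      refine ⟨evder h hε (hb t ht), Eventually.of_forall fun u => ?_⟩
      have e : (fun t => γ (t - t₀ + s)) = fun t => γ (t + (s - t₀)) := by
        funext t
        congr 1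
        ring
      rw [e]
      have e2 : u - t₀ + s = u + (s - t₀) := by ring
      rw [e2]
      exact (hγ (u + (s - t₀))).comp_add_const u (s - t₀))
  intro t ht
  exact ⟨t - t₀ + s, (key t ht).symm⟩

lemma box (h : Flw a c R Z W) {ε : ℝ} (hε : |ε| < 1) {p₀ : ℝ × ℝ} (hp1 : p₀.1 = 0)
    (hp2 : 0 < p₀.2) {T : ℝ} (hT : 0 < T) (hb : ∀ t ∈ Icc 0 T, ‖Z t p₀ ε‖ < R) {J : Set ℝ}
    (hJo : IsOpen J) (hJ : p₀.2 ∈ J) :
    ∃ ρ : ℝ, 0 < ρ ∧ ∃ N : Set (ℝ × ℝ), IsOpen N ∧ p₀ ∈ N ∧ ∀ v ∈ N,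
      (∀ t ∈ Icc (-ρ) T, ‖Z t v ε‖ < R) ∧
        ∃ s ∈ Icc (-ρ) T, (Z s v ε).1 = 0 ∧ (Z s v ε).2 ∈ J := by
  have cZ := contZ h ε
  have z0 : Z 0 p₀ ε = p₀ := h.zero p₀ ε
  have hb0 : ‖Z 0 p₀ ε‖ < R := hb 0 ⟨le_rfl, hT.le⟩
  have hd : HasDerivAt (fun s => (Z s p₀ ε).1) p₀.2 0 := by
    have h1 := h.der p₀ ε 0 hb0 hε
    have h2 := h1.fst
    rw [z0] at h2
    exact h2
  have hsign : ∀ᶠ s in 𝓝 (0 : ℝ), SignType.sign (Z s p₀ ε).1 = SignType.sign (s - 0) := by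
    apply eventually_nhdsWithin_sign_eq_of_deriv_pos
    · rw [hd.deriv]
      exact hp2
    · show (Z 0 p₀ ε).1 = 0
      rw [z0]
      exact hp1
  have hJe : ∀ᶠ s in 𝓝 (0 : ℝ), (Z s p₀ ε).2 ∈ J := by
    have h1 : ContinuousAt (fun s => (Z s p₀ ε).2) 0 := (contZt h ε p₀).snd.continuousAt
    apply h1
    apply hJo.mem_nhds
    show (Z 0 p₀ ε).2 ∈ J
    rw [z0]
    exact hJ
  have hRe : ∀ᶠ s in 𝓝 (0 : ℝ), ‖Z s p₀ ε‖ < R :=
    (contZt h ε p₀).norm.continuousAt.eventually_lt continuousAt_const hb0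
  obtain ⟨ρ₁, hρ₁, hall⟩ := Metric.eventually_nhds_iff.1 (hsign.and (hJe.and hRe))
  set ρ := min (ρ₁ / 2) T with hρ
  have hρ0 : 0 < ρ := lt_min (by linarith) hT
  have hρT : ρ ≤ T := min_le_right _ _
  have hin : ∀ s ∈ Icc (-ρ) ρ, dist s 0 < ρ₁ := by
    intro s hs
    rw [dist_zero_right, Real.norm_eq_abs]
    have h1 : |s| ≤ ρ := abs_le.2 hs
    have h2 : ρ ≤ ρ₁ / 2 := min_le_left _ _
    linarith
  have hx1 : 0 < (Z ρ p₀ ε).1 := by
    have h1 := (hall (hin ρ ⟨by linarith, le_rfl⟩)).1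
    rw [sub_zero, sign_pos hρ0, sign_eq_one_iff] at h1
    exact h1
  have hx2 : (Z (-ρ) p₀ ε).1 < 0 := by
    have h1 := (hall (hin (-ρ) ⟨le_rfl, by linarith⟩)).1
    rw [sub_zero, sign_neg (by linarith : -ρ < 0), sign_eq_neg_one_iff] at h1
    exact h1
  have hball : ∀ t ∈ Icc (-ρ) T, ‖Z t p₀ ε‖ < R := by
    intro t ht
    by_cases h0 : 0 ≤ t
    · exact hb t ⟨h0, ht.2⟩
    · push Not at h0
      exact (hall (hin t ⟨ht.1, by linarith⟩)).2.2
  obtain ⟨u1, v1, -, hv1, hs1, ht1, hn1⟩ := generalized_tube_lemma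
    (isCompact_Icc (a := -ρ) (b := T)) (isCompact_singleton (x := p₀))
    (n := {q : ℝ × (ℝ × ℝ) | ‖Z q.1 q.2 ε‖ < R}) (isOpen_lt cZ.norm continuous_const) (by
      rintro ⟨t, v⟩ ⟨h1, h2⟩
      have h3 : v = p₀ := h2
      subst h3
      exact hball t h1)
  obtain ⟨u2, v2, -, hv2, hs2, ht2, hn2⟩ := generalized_tube_lemma
    (isCompact_Icc (a := -ρ) (b := ρ)) (isCompact_singleton (x := p₀))
    (n := {q : ℝ × (ℝ × ℝ) | (Z q.1 q.2 ε).2 ∈ J}) (hJo.preimage cZ.snd) (by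
      rintro ⟨t, v⟩ ⟨h1, h2⟩
      have h3 : v = p₀ := h2
      subst h3
      exact (hall (hin t h1)).2.1)
  have o3 : IsOpen {v : ℝ × ℝ | 0 < (Z ρ v ε).1} :=
    isOpen_lt continuous_const (contZv h ε ρ).fst
  have o4 : IsOpen {v : ℝ × ℝ | (Z (-ρ) v ε).1 < 0} :=
    isOpen_lt (contZv h ε (-ρ)).fst continuous_const
  refine ⟨ρ, hρ0, ((v1 ∩ v2) ∩ ({v : ℝ × ℝ | 0 < (Z ρ v ε).1} ∩ {v : ℝ × ℝ | (Z (-ρ) v ε).1 < 0})),
    (hv1.inter hv2).inter (o3.inter o4), ⟨⟨ht1 rfl, ht2 rfl⟩, hx1, hx2⟩, ?_⟩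
  rintro v ⟨⟨w1, w2⟩, w3, w4⟩
  refine ⟨fun t ht => hn1 (Set.mk_mem_prod (hs1 ht) w1), ?_⟩
  have hiv := intermediate_value_Icc (show -ρ ≤ ρ by linarith)
    (f := fun s => (Z s v ε).1) (contZt h ε v).fst.continuousOn
  obtain ⟨s, hs, hs0⟩ := hiv ⟨w4.le, w3.le⟩
  exact ⟨s, ⟨hs.1, hs.2.trans hρT⟩, hs0, hn2 (Set.mk_mem_prod (hs2 hs) w2)⟩

/-- the closed orbit -/
lemma orbit (h : Flw a c R Z W) {ε : ℝ} (hε : |ε| < 1) {p₀ : ℝ × ℝ} {T : ℝ} (hT : 0 < T)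
    (hb : ∀ t ∈ Icc 0 T, ‖Z t p₀ ε‖ < R) (hp : p₀ ≠ 0) (hfix : Z T p₀ ε = -p₀) :
    range (fun t => Z t p₀ ε) ∈ Closed (fld a c ε) ∧
      ∀ z ∈ range (fun t => Z t p₀ ε), ∃ t ∈ Icc 0 T, z = Z t p₀ ε ∨ z = -Z t p₀ ε := by
  have hneg : ∀ s ∈ Icc 0 T, Z s (-p₀) ε = -Z s p₀ ε := by
    refine cont_uniq (fld_smooth a c ε) (f := fun s => Z s (-p₀) ε)
      (g := fun s => -Z s p₀ ε) (contZt h ε _) (contZt h ε _).neg (t₀ := 0) ⟨le_rfl, hT.le⟩
      (by simp [h.zero]) ?_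
    intro t ht he
    have he' : Z t (-p₀) ε = -Z t p₀ ε := he
    constructor
    · apply evder h hε
      rw [he', norm_neg]
      exact hb t ht
    · filter_upwards [evder h hε (hb t ht)] with s hs
      show HasDerivAt (fun s => -Z s p₀ ε) (fld a c ε (-Z s p₀ ε)) s
      rw [fld_odd]
      exact hs.neg
  have h2 : ∀ s ∈ Icc 0 T, Z (T + s) p₀ ε = -Z s p₀ ε := by
    intro s hs
    rw [add_comm, h.add, hfix]
    exact hneg s hs
  have hper : ∀ t, Z (t + 2 * T) p₀ ε = Z t p₀ ε := by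
    intro t
    have h3 : Z (2 * T) p₀ ε = p₀ := by
      have := h2 T ⟨hT.le, le_rfl⟩
      rw [hfix, neg_neg] at this
      rw [← this]
      congr 1
      ring
    rw [h.add, h3]
  have hp' : Function.Periodic (fun t => Z t p₀ ε) (2 * T) := hper
  have harc : ∀ t, ∃ s ∈ Icc 0 T, Z t p₀ ε = Z s p₀ ε ∨ Z t p₀ ε = -Z s p₀ ε := by
    intro t
    obtain ⟨y, hy, hty⟩ := hp'.exists_mem_Ico₀ (by linarith) t
    have hty' : Z t p₀ ε = Z y p₀ ε := hty
    by_cases hyT : y ≤ T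
    · exact ⟨y, ⟨hy.1, hyT⟩, Or.inl hty'⟩
    · push Not at hyT
      refine ⟨y - T, ⟨by linarith, by linarith [hy.2]⟩, Or.inr ?_⟩
      rw [hty', ← h2 (y - T) ⟨by linarith, by linarith [hy.2]⟩]
      congr 1
      ring
  refine ⟨⟨fun t => Z t p₀ ε, 2 * T, by linarith, fun t => ?_, hper, ⟨T, ?_⟩, rfl⟩, ?_⟩
  · obtain ⟨s, hs, hs' | hs'⟩ := harc t
    · apply h.der _ _ _ _ hε
      rw [hs']
      exact hb s hs
    · apply h.der _ _ _ _ hε
      rw [hs', norm_neg]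
      exact hb s hs
  · show Z T p₀ ε ≠ Z 0 p₀ ε
    rw [hfix, h.zero]
    intro he
    apply hp
    have h5 : p₀ + p₀ = 0 := by
      nth_rewrite 1 [← he]
      simp
    have h6 : (2 : ℝ) • p₀ = 0 := by
      rw [two_smul]
      exact h5
    exact (smul_eq_zero.1 h6).resolve_left two_ne_zero
  · rintro z ⟨t, rfl⟩
    exact harc t

end flow

/-! ### The section -/

lemma kp_lt {u w : ℝ} (hu : 0 ≤ u) (huw : u < w) : kp w < kp u := by
  unfold kp
  have h1 : u ^ 2 < w ^ 2 := by nlinarith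
  have h2 : w ^ 2 - u ^ 2 + 1 < Real.exp (w ^ 2 - u ^ 2) :=
    Real.add_one_lt_exp (by linarith)
  have h3 : Real.exp (-u ^ 2) = Real.exp (w ^ 2 - u ^ 2) * Real.exp (-w ^ 2) := by
    rw [← Real.exp_add]
    congr 1
    ring
  rw [h3]
  have h4 := Real.exp_pos (-w ^ 2)
  have h5 : 1 + w ^ 2 ≤ (w ^ 2 - u ^ 2 + 1) * (1 + u ^ 2) := by nlinarith [sq_nonneg u]
  have h6 : (w ^ 2 - u ^ 2 + 1) * (1 + u ^ 2) < Real.exp (w ^ 2 - u ^ 2) * (1 + u ^ 2) :=
    mul_lt_mul_of_pos_right h2 (by positivity)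
  have h7 := mul_lt_mul_of_pos_left (h5.trans_lt h6) h4
  calc Real.exp (-w ^ 2) * (1 + w ^ 2) < _ := h7
    _ = _ := by ring

lemma kp_le (u : ℝ) : kp u ≤ 1 := by
  unfold kp
  have h1 : u ^ 2 + 1 ≤ Real.exp (u ^ 2) := Real.add_one_le_exp _
  have h2 : Real.exp (-u ^ 2) * Real.exp (u ^ 2) = 1 := by
    rw [← Real.exp_add]
    simp
  have h3 := mul_le_mul_of_nonneg_left h1 (Real.exp_pos (-u ^ 2)).le
  linarith

lemma et_lt {u w : ℝ} (hu : 0 ≤ u) (huw : u < w) : et u < et w := by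
  unfold et
  apply Real.sqrt_lt_sqrt
  · linarith [kp_le u]
  · linarith [kp_lt hu huw]

lemma et_cont : Continuous et := by
  unfold et kp
  fun_prop

/-- the core of the argument on the line -/
lemma core {S : Set ℝ} (hS : IsClosed S) {e y : ℝ → ℝ} {X b : ℝ} (hXb : X < b)
    (he : ContinuousOn e (Icc X b)) (hy : ContinuousOn y (Icc X b))
    (hem : ∀ u ∈ Icc X b, ∀ w ∈ Icc X b, u < w → e u < e w)
    (hym : ∀ u ∈ Icc X b, ∀ w ∈ Icc X b, u < w → y u < y w)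
    (h0 : e X = y X) (hne : ∀ u ∈ Ioc X b, y u ≠ e u) (hinv : ∀ u ∈ Icc X b, e u ∈ S ↔ y u ∈ S)
    (hb : e b ∈ S) : e X ∈ S := by
  by_contra hX
  have hK : IsCompact (Icc X b ∩ e ⁻¹' S) :=
    isCompact_Icc.of_isClosed_subset (he.preimage_isClosed_of_isClosed isClosed_Icc hS)
      inter_subset_left
  have hKn : (Icc X b ∩ e ⁻¹' S).Nonempty := ⟨b, ⟨hXb.le, le_rfl⟩, hb⟩
  obtain ⟨m, ⟨hm, hmS⟩, hmin⟩ := hK.exists_isLeast hKn
  have hXm : X < m := by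
    rcases hm.1.eq_or_lt with h | h
    · exact absurd (h ▸ hmS : e X ∈ S) hX
    · exact h
  have hXX : X ∈ Icc X b := ⟨le_rfl, hXb.le⟩
  have hsub : Icc X m ⊆ Icc X b := Icc_subset_Icc_right hm.2
  rcases lt_or_gt_of_ne (hne m ⟨hXm, hm.2⟩) with h1 | h1
  · have h2 : e X < y m := by
      rw [h0]
      exact hym X hXX m hm hXm
    obtain ⟨x, hx, hxe⟩ := intermediate_value_Ioo hXm.le (he.mono hsub) ⟨h2, h1⟩
    have h3 : e x ∈ S := by
      rw [hxe]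
      exact (hinv m hm).1 hmS
    exact absurd (hmin ⟨hsub ⟨hx.1.le, hx.2.le⟩, h3⟩) (not_le.2 hx.2)
  · have h2 : y X < e m := by
      rw [← h0]
      exact hem X hXX m hm hXm
    obtain ⟨x, hx, hxe⟩ := intermediate_value_Ioo hXm.le (hy.mono hsub) ⟨h2, h1⟩
    have h3 : e x ∈ S := by
      rw [hinv x (hsub ⟨hx.1.le, hx.2.le⟩), hxe]
      exact hmS
    exact absurd (hmin ⟨hsub ⟨hx.1.le, hx.2.le⟩, h3⟩) (not_le.2 hx.2)

/-- both sides -/
lemma core2 {S : Set ℝ} (hS : IsClosed S) {e y : ℝ → ℝ} {X A B : ℝ} (hX : X ∈ Ioo A B)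
    (he : ContinuousOn e (Ioo A B)) (hy : ContinuousOn y (Ioo A B))
    (hem : ∀ u ∈ Ioo A B, ∀ w ∈ Ioo A B, u < w → e u < e w)
    (hym : ∀ u ∈ Ioo A B, ∀ w ∈ Ioo A B, u < w → y u < y w)
    (h0 : e X = y X) (hne : ∀ u ∈ Ioo A B, u ≠ X → y u ≠ e u)
    (hinv : ∀ u ∈ Ioo A B, e u ∈ S ↔ y u ∈ S) {b : ℝ} (hbI : b ∈ Ioo A B)
    (hb : e b ∈ S) : e X ∈ S := by
  rcases lt_trichotomy X b with h | h | h
  · have hsub : Icc X b ⊆ Ioo A B := fun u hu => ⟨hX.1.trans_le hu.1, hu.2.trans_lt hbI.2⟩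
    exact core hS h (he.mono hsub) (hy.mono hsub) (fun u hu w hw => hem u (hsub hu) w (hsub hw))
      (fun u hu w hw => hym u (hsub hu) w (hsub hw)) h0
      (fun u hu => hne u (hsub ⟨hu.1.le, hu.2⟩) hu.1.ne')
      (fun u hu => hinv u (hsub hu)) hb
  · rw [h]
    exact hb
  · have hsub : Icc b X ⊆ Ioo A B := fun u hu => ⟨hbI.1.trans_le hu.1, hu.2.trans_lt hX.2⟩
    have hneg : ∀ u ∈ Icc (-X) (-b), -u ∈ Icc b X := fun u hu =>
      ⟨by linarith [hu.2], by linarith [hu.1]⟩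
    have hmap : MapsTo (fun u : ℝ => -u) (Icc (-X) (-b)) (Ioo A B) := fun u hu =>
      hsub (hneg u hu)
    have key := core (S := (fun u => -u) ⁻¹' S) (hS.preimage continuous_neg)
      (e := fun u => -e (-u)) (y := fun u => -y (-u)) (X := -X) (b := -b) (by linarith)
      (he.comp continuous_neg.continuousOn hmap).neg (hy.comp continuous_neg.continuousOn hmap).neg
      (fun u hu w hw huw => neg_lt_neg (hem _ (hmap hw) _ (hmap hu) (neg_lt_neg huw)))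
      (fun u hu w hw huw => neg_lt_neg (hym _ (hmap hw) _ (hmap hu) (neg_lt_neg huw)))
      (by simp [h0])
      (by
        intro u hu h5
        have h6 := neg_injective h5
        exact hne (-u) (hmap ⟨hu.1.le, hu.2⟩) (by intro h7; linarith [hu.1]) h6)
      (by
        intro u hu
        show - -e (-u) ∈ S ↔ - -y (-u) ∈ S
        rw [neg_neg, neg_neg]
        exact hinv (-u) (hmap hu))
      (by
        show - -e (- -b) ∈ S
        rw [neg_neg, neg_neg]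
        exact hb)
    have key' : - -e (- -X) ∈ S := key
    rwa [neg_neg, neg_neg] at key'

theorem isolated {a c R X₀ : ℝ} {Z : ℝ → ℝ × ℝ → ℝ → ℝ × ℝ} {W : ℝ → ℝ × ℝ → ℝ → ℝ}
    (h : Flw a c R Z W) {τ : ℝ × ℝ → ℝ} {δ : ℝ} (hh : Half a c R X₀ Z W τ δ)
    {ε X r : ℝ} (hε : 0 < ε) (hεδ : ε < δ) (hr : 0 < r) (h1 : X₀ - δ < X - r)
    (h2 : X + r < X₀ + δ) (hfix : Z (τ (X, ε)) (0, et X) ε = (0, -et X))
    (huniq : ∀ X' ∈ Ioo (X - r) (X + r), X' ≠ X → Z (τ (X', ε)) (0, et X') ε ≠ (0, -et X'))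
    (hmono : ∀ X' ∈ Ioo (X - r) (X + r), ∀ X'' ∈ Ioo (X - r) (X + r), X' < X'' →
        (Z (τ (X'', ε)) (0, et X'') ε).2 < (Z (τ (X', ε)) (0, et X') ε).2) :
    ∃ C ∈ Cyc (fld a c ε), (0, et X) ∈ C ∧ ∀ z ∈ C, ∃ t ∈ Icc 0 (τ (X, ε)),
      z = Z t (0, et X) ε ∨ z = -Z t (0, et X) ε := by
  have hε1 : |ε| < 1 := by
    rw [abs_of_pos hε]
    exact hεδ.trans hh.hδ1
  have hεI : ε ∈ Ioo (-δ) δ := ⟨by linarith, hεδ⟩
  have hXI : X ∈ Ioo (X - r) (X + r) := ⟨by linarith, by linarith⟩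
  have hsub : ∀ X' ∈ Ioo (X - r) (X + r), X' ∈ Ioo (X₀ - δ) (X₀ + δ) := fun X' hX' =>
    ⟨by linarith [hX'.1], by linarith [hX'.2]⟩
  have hpos0 : 0 < X - r := by linarith [hh.hδ0]
  have hT := hh.pos X (hsub X hXI) ε hεI
  have hball := hh.ball X (hsub X hXI) ε hεI
  have het : 0 < et X := by
    have h3 := hh.neg X (hsub X hXI) ε hεI
    rw [hfix] at h3
    simp only at h3
    linarith
  set T := τ (X, ε) with hTdef
  set p₀ : ℝ × ℝ := (0, et X) with hp₀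
  have hfix' : Z T p₀ ε = -p₀ := by
    rw [hfix, hp₀, Prod.neg_mk, neg_zero]
  have hp0 : p₀ ≠ 0 := by
    intro h3
    have := congrArg Prod.snd h3
    simp only [hp₀, Prod.snd_zero] at this
    linarith
  obtain ⟨hC, harc⟩ := orbit h hε1 hT hball hp0 hfix'
  set C := range (fun t => Z t p₀ ε) with hCdef
  have hpC : p₀ ∈ C := ⟨0, h.zero p₀ ε⟩
  have hnC : -p₀ ∈ C := ⟨T, hfix'⟩
  refine ⟨C, ⟨hC, ?_⟩, hpC, harc⟩
  -- the neighbourhood
  have hJ1 : et (X - r / 2) < et X := et_lt (by linarith) (by linarith)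
  have hJ2 : et X < et (X + r / 2) := et_lt (by linarith) (by linarith)
  obtain ⟨ρ, hρ, N, hN, hpN, hNv⟩ := box h hε1 (p₀ := p₀) rfl het hT hball
    (J := Ioo (et (X - r / 2)) (et (X + r / 2))) isOpen_Ioo ⟨hJ1, hJ2⟩
  refine ⟨{z | ∃ t ∈ Icc 0 T, Z (-t) z ε ∈ N} ∪ {z | ∃ t ∈ Icc 0 T, Z (-t) (-z) ε ∈ N}, ?_, ?_, ?_⟩
  · apply IsOpen.union
    · have e : {z | ∃ t ∈ Icc 0 T, Z (-t) z ε ∈ N} =
          ⋃ t ∈ Icc 0 T, (fun z => Z (-t) z ε) ⁻¹' N := by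
        ext z
        simp
      rw [e]
      exact isOpen_biUnion fun t _ => hN.preimage (contZv h ε (-t))
    · have e : {z | ∃ t ∈ Icc 0 T, Z (-t) (-z) ε ∈ N} =
          ⋃ t ∈ Icc 0 T, (fun z => Z (-t) (-z) ε) ⁻¹' N := by
        ext z
        simp
      rw [e]
      exact isOpen_biUnion fun t _ => hN.preimage ((contZv h ε (-t)).comp continuous_neg)
  · intro z hz
    obtain ⟨t, ht, rfl | rfl⟩ := harc z hz
    · refine Or.inl ⟨t, ht, ?_⟩
      rw [← h.add, neg_add_cancel, h.zero]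
      exact hpN
    · refine Or.inr ⟨t, ht, ?_⟩
      rw [neg_neg, ← h.add, neg_add_cancel, h.zero]
      exact hpN
  · rintro D hD ⟨z, hzD, hzU⟩
    have hD' := neg_closed hD
    set S : Set ℝ := {η | ((0 : ℝ), η) ∈ D ∨ ((0 : ℝ), -η) ∈ D} with hS
    have hSc : IsClosed S := by
      have h3 := closed_isClosed hD
      exact (h3.preimage (by fun_prop : Continuous fun η : ℝ => ((0 : ℝ), η))).union
        (h3.preimage (by fun_prop : Continuous fun η : ℝ => ((0 : ℝ), -η)))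
    -- the arc
    have harcD : ∀ D' ∈ Closed (fld a c ε), ∀ X' ∈ Ioo (X - r) (X + r),
        (((0 : ℝ), et X') ∈ D' ↔ ((0 : ℝ), (Z (τ (X', ε)) (0, et X') ε).2) ∈ D') := by
      intro D' hD' X' hX'
      have hX'' := hsub X' hX'
      have k1 := hh.pos X' hX'' ε hεI
      have k2 := hh.ball X' hX'' ε hεI
      have k3 := hh.hit X' hX'' ε hεI
      have k4 : ((0 : ℝ), (Z (τ (X', ε)) (0, et X') ε).2) = Z (τ (X', ε)) (0, et X') ε :=
        Prod.ext k3.symm rfl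
      rw [k4]
      constructor
      · intro h3
        exact follow h hε1 hD' (t₀ := 0) ⟨le_rfl, k1.le⟩ k2 (by rw [h.zero]; exact h3) _
          ⟨k1.le, le_rfl⟩
      · intro h3
        have := follow h hε1 hD' (t₀ := τ (X', ε)) ⟨k1.le, le_rfl⟩ k2 h3 0 ⟨le_rfl, k1.le⟩
        rwa [h.zero] at this
    have hmemn : ∀ η : ℝ, ((0 : ℝ), η) ∈ {z : ℝ × ℝ | -z ∈ D} ↔ ((0 : ℝ), -η) ∈ D := by
      intro η
      show -((0 : ℝ), η) ∈ D ↔ _
      rw [Prod.neg_mk, neg_zero]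
    have hinv : ∀ X' ∈ Ioo (X - r) (X + r),
        (et X' ∈ S ↔ -(Z (τ (X', ε)) (0, et X') ε).2 ∈ S) := by
      intro X' hX'
      have k1 := harcD D hD X' hX'
      have k2 := harcD _ hD' X' hX'
      rw [hmemn, hmemn] at k2
      show (((0 : ℝ), et X') ∈ D ∨ ((0 : ℝ), -et X') ∈ D) ↔
        (((0 : ℝ), -(Z (τ (X', ε)) (0, et X') ε).2) ∈ D ∨
          ((0 : ℝ), - -(Z (τ (X', ε)) (0, et X') ε).2) ∈ D)
      rw [neg_neg, k1, k2]
      exact or_comm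
    -- a point of the section
    have hsec : ∃ X' ∈ Ioo (X - r) (X + r), et X' ∈ S := by
      have hiv : ∀ η ∈ Ioo (et (X - r / 2)) (et (X + r / 2)),
          ∃ X' ∈ Ioo (X - r) (X + r), et X' = η := by
        intro η hη
        obtain ⟨x, hx, hxe⟩ := intermediate_value_Ioo (show X - r / 2 ≤ X + r / 2 by linarith)
          et_cont.continuousOn hη
        exact ⟨x, ⟨by linarith [hx.1], by linarith [hx.2]⟩, hxe⟩
      rcases hzU with ⟨t, ht, htN⟩ | ⟨t, ht, htN⟩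
      · obtain ⟨w1, s, hs, hs1, hs2⟩ := hNv _ htN
        obtain ⟨X', hX', hX'e⟩ := hiv _ hs2
        refine ⟨X', hX', Or.inl ?_⟩
        have k1 : Z t (Z (-t) z ε) ε = z := by
          rw [← h.add, add_neg_cancel, h.zero]
        have k2 := follow h hε1 hD (t₀ := t) ⟨by linarith [ht.1], ht.2⟩ w1
          (by rw [k1]; exact hzD) s hs
        rw [hX'e, ← hs1]
        exact k2
      · obtain ⟨w1, s, hs, hs1, hs2⟩ := hNv _ htN
        obtain ⟨X', hX', hX'e⟩ := hiv _ hs2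
        refine ⟨X', hX', Or.inr ?_⟩
        have k1 : Z t (Z (-t) (-z) ε) ε = -z := by
          rw [← h.add, add_neg_cancel, h.zero]
        have k2 := follow h hε1 hD' (t₀ := t) ⟨by linarith [ht.1], ht.2⟩ w1
          (by rw [k1]; show - -z ∈ D; rw [neg_neg]; exact hzD) s hs
        rw [← hmemn, hX'e, ← hs1]
        exact k2
    obtain ⟨b, hbI, hbS⟩ := hsec
    have hyc : ContinuousOn (fun X' => -(Z (τ (X', ε)) (0, et X') ε).2)
        (Ioo (X - r) (X + r)) := by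
      have t1 : ContinuousOn (fun X' : ℝ => τ (X', ε)) (Ioo (X - r) (X + r)) :=
        hh.smooth.continuousOn.comp (by fun_prop : Continuous fun X' : ℝ => (X', ε)).continuousOn
          fun X' hX' => ⟨hsub X' hX', hεI⟩
      have t2 : ContinuousOn (fun X' : ℝ => (τ (X', ε), ((0 : ℝ), et X')))
          (Ioo (X - r) (X + r)) :=
        t1.prodMk ((by
          have := et_cont
          fun_prop : Continuous fun X' : ℝ => ((0 : ℝ), et X')).continuousOn)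
      exact ((contZ h ε).snd.comp_continuousOn t2).neg
    have hXS := core2 hSc hXI et_cont.continuousOn hyc
      (fun u hu w _ huw => et_lt (by linarith [hu.1]) huw)
      (fun u hu w hw huw => neg_lt_neg (hmono u hu w hw huw))
      (by
        show et X = -(Z (τ (X, ε)) (0, et X) ε).2
        rw [← hTdef, ← hp₀, hfix]
        simp)
      (by
        intro u hu hne h5
        apply huniq u hu hne
        have k3 := hh.hit u (hsub u hu) ε hεI
        have h6 : -(Z (τ (u, ε)) (0, et u) ε).2 = et u := h5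
        ext
        · exact k3
        · show (Z (τ (u, ε)) (0, et u) ε).2 = -et u
          linarith)
      hinv hbI hbS
    rcases hXS with h3 | h3
    · exact closed_eq hD hC h3 hpC
    · refine closed_eq hD hC h3 ?_
      have : -p₀ = ((0 : ℝ), -et X) := by
        rw [hp₀, Prod.neg_mk, neg_zero]
      rw [← this]
      exact hnC

end Pool.Agent.W403.HC
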