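import Pool.Agent.W886.PM.Stm0

/-! Project PM, task NPB: Partial MBPSP is in NP relative to the oracle -/

set_option autoImplicit false

namespace Pool.Agent.W403.PMNPB

open Pool.Agent.NPC Pool.Agent.H620R2.Gauge Pool.Agent.H943R6.MC Pool.Agent.H622R2.Ckt
open Pool.Agent.W886.PM

/-- certificates: the program and the answers of the oracle for all inputs -/
abbrev D : Type := BP × List (List Bool)

/-- the pairs (input, answers) -/
def prs (d : D) (T : List Bool) : List (List Bool × List Bool) := (cubeOf T).zip d.2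

/-- all questions -/
def QF (d : D) (T : List Bool) : List (List Bool) := (prs d T).flatMap fun p => bq p.1 d.1

/-- all claimed answers -/
def CF (d : D) (T : List Bool) : List Bool := (prs d T).flatMap fun p => p.2

/-- the values are right -/
def VF (d : D) (T M : List Bool) : Bool :=
  ((T.zip M).zip (prs d T)).all fun q =>
    !q.1.2 || decide ((bev q.2.1 (d.1.zip q.2.2)).getD 0 false = q.1.1)

/-- the number of variables -/
def nv (T : List Bool) : ℕ := ((cubeOf T).getD 0 []).length

/-- the check -/
def chk (t : ℕ × BP → Bool) (d : D) (T M S ans : List Bool) : Bool :=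
  (S.all fun b => b) && decide ((cubeOf T).length = T.length) && decide (M.length = T.length) &&
    decide (d.2.length = T.length) && ((prs d T).all fun p => decide (p.2.length = d.1.length)) &&
    decide (ans = CF d T) && VF d T M && decide (bsize d.1 ≤ S.length) &&
    decide (1 ≤ nv T) && t (nv T, d.1)

/-- the parts of the instance -/
def yT (y : List Bool) : List Bool := (unpair (unpair y).1).1

/-- the mask -/
def yM (y : List Bool) : List Bool := (unpair (unpair y).1).2

/-- the size -/
def yS (y : List Bool) : List Bool := (unpair y).2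

/-- the questions of the verifier -/
def Qv (z : List Bool) : List (List Bool) :=
  match unbits D (unpair z).1 with
  | none => []
  | some d => QF d (yT (unpair z).2)

/-- the answer of the verifier -/
def Hv (t : ℕ × BP → Bool) (p : List Bool × List Bool) : List Bool :=
  match unbits D (unpair p.1).1 with
  | none => []
  | some d => [chk t d (yT (unpair p.1).2) (yM (unpair p.1).2) (yS (unpair p.1).2) p.2 &&
      decide (pairBits (pairBits (yT (unpair p.1).2) (yM (unpair p.1).2)) (yS (unpair p.1).2) =
        (unpair p.1).2)]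

section poly

variable {α : Type} [TEnc α]

theorem poly_yT {y : α → List Bool} (hy : Poly y) : Poly (fun a => yT (y a)) :=
  Poly.fst (poly_unpair.comp (Poly.fst (poly_unpair.comp hy)))

theorem poly_yM {y : α → List Bool} (hy : Poly y) : Poly (fun a => yM (y a)) :=
  Poly.snd (poly_unpair.comp (Poly.fst (poly_unpair.comp hy)))

theorem poly_yS {y : α → List Bool} (hy : Poly y) : Poly (fun a => yS (y a)) :=
  Poly.snd (poly_unpair.comp hy)

theorem poly_prs {d : α → D} {T : α → List Bool} (hd : Poly d) (hT : Poly T) :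
    Poly (fun a => prs (d a) (T a)) :=
  Poly.zip (poly_cubeOf.comp hT) (Poly.snd hd)

theorem poly_QF (hbq : Poly (fun p : List Bool × BP => bq p.1 p.2)) {d : α → D}
    {T : α → List Bool} (hd : Poly d) (hT : Poly T) : Poly (fun a => QF (d a) (T a)) := by
  refine Poly.flatMap (F := fun a p => bq p.1 (d a).1) (poly_prs hd hT) ?_
  exact hbq.comp (Poly.pair (Poly.fst (Poly.snd Poly.id))
    (Poly.fst (hd.comp (Poly.fst Poly.id))))

theorem poly_CF {d : α → D} {T : α → List Bool} (hd : Poly d) (hT : Poly T) :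
    Poly (fun a => CF (d a) (T a)) :=
  Poly.flatMap (F := fun (_ : α) (p : List Bool × List Bool) => p.2) (poly_prs hd hT)
    (Poly.snd (Poly.snd Poly.id))

theorem poly_VF (hbev : Poly (fun p : List Bool × List ((Lbl × ℕ × ℕ) × Bool) => bev p.1 p.2))
    {d : α → D} {T M : α → List Bool} (hd : Poly d) (hT : Poly T) (hM : Poly M) :
    Poly (fun a => VF (d a) (T a) (M a)) := by
  refine Poly.all (p := fun a (q : (Bool × Bool) × (List Bool × List Bool)) =>
    !q.1.2 || decide ((bev q.2.1 ((d a).1.zip q.2.2)).getD 0 false = q.1.1))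
    (Poly.zip (Poly.zip hT hM) (poly_prs hd hT)) ?_
  refine Poly.or (Poly.not (Poly.snd (Poly.fst (Poly.snd Poly.id)))) ?_
  refine Poly.decide_eq ?_ (Poly.fst (Poly.fst (Poly.snd Poly.id)))
  refine Poly.getD ?_ (NPC.Poly.const 0) (NPC.Poly.const false)
  refine hbev.comp (Poly.pair (Poly.fst (Poly.snd (Poly.snd Poly.id))) ?_)
  exact Poly.zip (Poly.fst (hd.comp (Poly.fst Poly.id))) (Poly.snd (Poly.snd (Poly.snd Poly.id)))

theorem poly_nv {T : α → List Bool} (hT : Poly T) : Poly (fun a => nv (T a)) :=
  Poly.length (Poly.getD (poly_cubeOf.comp hT) (NPC.Poly.const 0) (NPC.Poly.const []))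

theorem poly_chk (h : S_BEV) {t : ℕ × BP → Bool} (ht : Poly t) {d : α → D}
    {T M S ans : α → List Bool} (hd : Poly d) (hT : Poly T) (hM : Poly M) (hS : Poly S)
    (ha : Poly ans) : Poly (fun a => chk t (d a) (T a) (M a) (S a) (ans a)) := by
  unfold chk
  refine Poly.and (Poly.and (Poly.and (Poly.and (Poly.and (Poly.and (Poly.and (Poly.and
    (Poly.and ?_ ?_) ?_) ?_) ?_) ?_) ?_) ?_) ?_) ?_
  · exact Poly.all (p := fun _ b => b) hS (Poly.snd Poly.id)
  · exact Poly.decide_eq (Poly.length (poly_cubeOf.comp hT)) (Poly.length hT)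
  · exact Poly.decide_eq (Poly.length hM) (Poly.length hT)
  · exact Poly.decide_eq (Poly.length (Poly.snd hd)) (Poly.length hT)
  · refine Poly.all (p := fun a p => decide (p.2.length = (d a).1.length)) (poly_prs hd hT) ?_
    exact Poly.decide_eq (Poly.length (Poly.snd (Poly.snd Poly.id)))
      (Poly.length (Poly.fst (hd.comp (Poly.fst Poly.id))))
  · exact Poly.decide_eq ha (poly_CF hd hT)
  · exact poly_VF h.2.2.1 hd hT hM
  · exact Poly.decide_le (h.2.2.2.2.comp (Poly.fst hd)) (Poly.length hS)
  · exact Poly.decide_le (NPC.Poly.const 1) (poly_nv hT)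
  · exact ht.comp (Poly.pair (poly_nv hT) (Poly.fst hd))

end poly

theorem poly_Qv (h : S_BEV) : Poly Qv := by
  refine (Poly.optCases (o := fun z : List Bool => unbits D (unpair z).1)
    (g := fun _ => ([] : List (List Bool))) (h := fun z d => QF d (yT (unpair z).2))
    (poly_unbits.comp (Poly.fst poly_unpair)) (NPC.Poly.const []) ?_).congr
    (fun z => by unfold Qv; cases unbits D (unpair z).1 <;> rfl)
  exact poly_QF h.2.1 (Poly.snd Poly.id)
    (poly_yT (Poly.snd (poly_unpair.comp (Poly.fst Poly.id))))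

theorem poly_Hv (h : S_BEV) {t : ℕ × BP → Bool} (ht : Poly t) : Poly (Hv t) := by
  refine (Poly.optCases (o := fun p : List Bool × List Bool => unbits D (unpair p.1).1)
    (g := fun _ => ([] : List Bool)) (h := fun p d =>
      [chk t d (yT (unpair p.1).2) (yM (unpair p.1).2) (yS (unpair p.1).2) p.2 &&
      decide (pairBits (pairBits (yT (unpair p.1).2) (yM (unpair p.1).2)) (yS (unpair p.1).2) =
        (unpair p.1).2)])
    (poly_unbits.comp (Poly.fst (poly_unpair.comp (Poly.fst Poly.id)))) (NPC.Poly.const []) ?_).congr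
    (fun p => by unfold Hv; cases unbits D (unpair p.1).1 <;> rfl)
  have h1 : Poly (fun x : (List Bool × List Bool) × D => (unpair x.1.1).2) :=
    Poly.snd (poly_unpair.comp (Poly.fst (Poly.fst Poly.id)))
  exact Poly.cons (Poly.and (poly_chk h ht (Poly.snd Poly.id) (poly_yT h1) (poly_yM h1)
    (poly_yS h1) (Poly.snd (Poly.fst Poly.id)))
    (Poly.decide_eq (H622R2.poly_pairBits (H622R2.poly_pairBits (poly_yT h1) (poly_yM h1))
      (poly_yS h1)) h1)) (NPC.Poly.const [])

/-! ### meaning -/

theorem flatMap_inj {α β : Type} (l : List α) (f g : α → List β)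
    (hlen : ∀ a ∈ l, (f a).length = (g a).length) (h : l.flatMap f = l.flatMap g) :
    ∀ a ∈ l, f a = g a := by
  induction l with
  | nil => intro a ha; simp at ha
  | cons b l ih =>
    rw [List.flatMap_cons, List.flatMap_cons] at h
    obtain ⟨h1, h2⟩ := List.append_inj h (hlen b List.mem_cons_self)
    intro a ha
    rcases List.mem_cons.1 ha with rfl | ha
    · exact h1
    · exact ih (fun a ha => hlen a (List.mem_cons_of_mem _ ha)) h2 a ha

theorem length_bq (x : List Bool) (P : BP) : (bq x P).length = P.length := by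
  unfold bq; rw [List.length_map]

theorem nv_eq {n : ℕ} {T : List Bool} (h : cubeOf T = cube n) : nv T = n := by
  have h0 : 0 < (cube n).length := by rw [length_cube]; positivity
  unfold nv
  rw [h, List.getD_eq_getElem _ _ h0]
  exact length_cube_mem n _ (List.getElem_mem _)

theorem table_getD (n : ℕ) (f : List Bool → Bool) (i : ℕ) (hi : i < (cube n).length) :
    (table n f).getD i false = f ((cube n)[i]) := by
  have h1 : i < (table n f).length := by unfold table; rw [List.length_map]; exact hi
  rw [List.getD_eq_getElem _ _ h1]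
  simp [table]

theorem sound (h : S_BEV) {t : ℕ × BP → Bool} (ht : ∀ n P, t (n, P) = true ↔ WF n P)
    (A : Oracle) {d : D} {T M S : List Bool} (hc : chk t d T M S ((QF d T).map A) = true) :
    ∃ n, 1 ≤ n ∧ WF n d.1 ∧ bsize d.1 ≤ S.length ∧ Agrees n (bout A d.1) T M ∧
      S = List.replicate S.length true := by
  unfold chk at hc
  simp only [Bool.and_eq_true, decide_eq_true_eq, List.all_eq_true] at hc
  obtain ⟨⟨⟨⟨⟨⟨⟨⟨⟨h1, h2⟩, h3⟩, h4⟩, h5⟩, h6⟩, h7⟩, h8⟩, h9⟩, h10⟩ := hc
  obtain ⟨n, hn1, hn2⟩ := exists_of_cubeOf h2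
  have hnv := nv_eq hn2
  rw [hnv] at h9 h10
  refine ⟨n, h9, (ht _ _).1 h10, h8, ⟨hn1, h3.trans hn1, ?_⟩, List.eq_replicate_iff.2 ⟨rfl, h1⟩⟩
  have key : ∀ p ∈ prs d T, (bq p.1 d.1).map A = p.2 := by
    apply flatMap_inj
    · intro p hp
      rw [List.length_map, length_bq, h5 p hp]
    · unfold QF CF at h6
      rw [List.map_flatMap] at h6
      exact h6
  intro i hi hMi
  have hci : i < (cube n).length := by rw [length_cube]; exact hi
  have hTi : i < T.length := by rw [hn1]; exact hi
  have hMl : i < M.length := by rw [h3]; exact hTi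
  have hdi : i < d.2.length := by rw [h4]; exact hTi
  have hcoi : i < (cubeOf T).length := by rw [h2]; exact hTi
  have hpi : i < (prs d T).length := by
    unfold prs; rw [List.length_zip]; exact lt_min hcoi hdi
  have hpe : (prs d T)[i] = ((cubeOf T)[i], d.2[i]) := by
    simp only [prs, List.getElem_zip]
  have hkey := key ((prs d T)[i]) (List.getElem_mem _)
  rw [hpe] at hkey
  have hzi : i < ((T.zip M).zip (prs d T)).length := by
    rw [List.length_zip, List.length_zip]
    exact lt_min (lt_min hTi hMl) hpi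
  have hze : ((T.zip M).zip (prs d T))[i] = ((T[i], M[i]), ((cubeOf T)[i], d.2[i])) := by
    rw [List.getElem_zip, List.getElem_zip, hpe]
  have h7' := (List.all_eq_true.1 h7) _ (List.getElem_mem hzi)
  rw [hze] at h7'
  rw [List.getD_eq_getElem _ _ hMl] at hMi
  simp only [hMi, Bool.not_true, Bool.false_or, decide_eq_true_eq] at h7'
  simp only at hkey
  rw [table_getD n _ i hci, List.getD_eq_getElem _ _ hTi, ← h7']
  have hce : (cube n)[i] = (cubeOf T)[i] := by
    simp only [hn2]
  unfold bout
  rw [hce, h.1, hkey]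

theorem complete (h : S_BEV) {t : ℕ × BP → Bool} (ht : ∀ n P, t (n, P) = true ↔ WF n P)
    (A : Oracle) {n s : ℕ} {T M : List Bool} {P : BP} (hn : 1 ≤ n) (hP : WF n P)
    (hs : bsize P ≤ s) (hA : Agrees n (bout A P) T M) :
    chk t (P, (cube n).map fun x => (bq x P).map A) T M (List.replicate s true)
      ((QF (P, (cube n).map fun x => (bq x P).map A) T).map A) = true := by
  obtain ⟨hT, hM, hag⟩ := hA
  have hcube := cubeOf_eq hT
  have hprs : prs (P, (cube n).map fun x => (bq x P).map A) T =
      (cube n).map fun x => (x, (bq x P).map A) := by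
    unfold prs
    rw [hcube, List.map_prod_left_eq_zip]
  unfold chk
  simp only [Bool.and_eq_true, decide_eq_true_eq, List.all_eq_true]
  refine ⟨⟨⟨⟨⟨⟨⟨⟨⟨?_, ?_⟩, ?_⟩, ?_⟩, ?_⟩, ?_⟩, ?_⟩, ?_⟩, ?_⟩, ?_⟩
  · intro b hb
    exact (List.mem_replicate.1 hb).2
  · rw [hcube, length_cube, hT]
  · rw [hT, hM]
  · rw [List.length_map, length_cube, hT]
  · intro p hp
    rw [hprs] at hp
    obtain ⟨x, _, rfl⟩ := List.mem_map.1 hp
    simp only [List.length_map, length_bq]
  · unfold QF CF
    rw [List.map_flatMap, hprs, List.flatMap_map, List.flatMap_map]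
  · unfold VF
    rw [hprs, List.all_eq_true]
    intro q hq
    obtain ⟨i, hi, rfl⟩ := List.mem_iff_getElem.1 hq
    have hi' := hi
    rw [List.length_zip, List.length_zip, List.length_map] at hi'
    have hTi : i < T.length := by omega
    have hMi : i < M.length := by omega
    have hci : i < (cube n).length := by omega
    rw [List.getElem_zip, List.getElem_zip, List.getElem_map]
    simp only
    by_cases hm : M[i] = true
    · have h1 := hag i (by rw [← hT]; exact hTi) (by rw [List.getD_eq_getElem _ _ hMi]; exact hm)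
      rw [table_getD n _ i hci, List.getD_eq_getElem _ _ hTi] at h1
      simp only [hm, Bool.not_true, Bool.false_or, decide_eq_true_eq]
      rw [← h1]
      unfold bout
      rw [h.1]
    · rw [Bool.not_eq_true] at hm
      simp only [hm, Bool.not_false, Bool.true_or]
  · rw [List.length_replicate]
    exact hs
  · rw [nv_eq hcube]
    exact hn
  · rw [nv_eq hcube, ht]
    exact hP

/-! ### the length of the certificate -/

theorem WF_mem {n : ℕ} : ∀ {P : BP}, WF n P → ∀ q ∈ P, LOk n q.1 ∧
    q.2.1 < P.length + 2 ∧ q.2.2 < P.length + 2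
  | [], _, q, hq => by simp at hq
  | p :: P, h, q, hq => by
    obtain ⟨h1, h2, h3, h4⟩ := h
    rw [List.length_cons]
    rcases List.mem_cons.1 hq with rfl | hq
    · exact ⟨h1, by omega, by omega⟩
    · obtain ⟨h5, h6, h7⟩ := WF_mem h4 q hq
      exact ⟨h5, by omega, by omega⟩

theorem lsz_le {P : BP} {q : Lbl × ℕ × ℕ} (hq : q ∈ P) : lsz q.1 ≤ bsize P := by
  unfold bsize
  have h1 : lsz q.1 ≤ (P.map (fun q => lsz q.1)).sum :=
    List.single_le_sum (fun _ _ => Nat.zero_le _) _ (List.mem_map_of_mem (f := fun q => lsz q.1) hq)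
  omega

theorem sz_nat' {i N : ℕ} (h : i ≤ N) : NPC.sz i ≤ 4 * N + 1 := by
  have h1 := sz_nat_le i
  have h2 := Poly.size_le_self i
  omega

theorem sz_item {n N : ℕ} (hn : n ≤ N) {a : Bool ⊕ ℕ} (ha : ∀ i, a = .inr i → i < n) :
    NPC.sz a ≤ 4 * N + 5 := by
  rcases a with b | i
  · have := sz_bool_le b
    rw [sz_inl]
    omega
  · have h1 := ha i rfl
    have h2 := sz_nat' (i := i) (N := N) (by omega)
    rw [sz_inr]
    omega

theorem sz_lbl {n N : ℕ} (hn : n ≤ N) {L : Lbl} (hL : LOk n L) (hs : lsz L ≤ N) :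
    NPC.sz L ≤ N * (4 * N + 6) + 4 * N + 5 := by
  rcases L with i | l
  · have h1 : i < n := hL
    have h2 := sz_nat' (i := i) (N := N) (by omega)
    rw [sz_inl]
    have h3 : 0 ≤ N * (4 * N + 6) := Nat.zero_le _
    omega
  · have h1 := sz_le_length_mul l (4 * N + 5) (by
      intro a ha
      refine sz_item hn ?_
      rintro i rfl
      exact hL i ha)
    have h2 : l.length ≤ N := hs
    have h3 : l.length * (4 * N + 5 + 1) ≤ N * (4 * N + 6) := Nat.mul_le_mul_right _ h2
    rw [sz_inr]
    omega

theorem sz_cert (A : Oracle) {n s N : ℕ} {P : BP} (hP : WF n P) (hs : bsize P ≤ s)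
    (hn : 2 ^ n ≤ N) (hsN : s ≤ N) :
    NPC.sz (P, (cube n).map fun x => (bq x P).map A) ≤
      N * (N * (4 * N + 6) + 12 * N + 10) + N * (4 * N + 2) + 3 := by
  have hnN : n ≤ N := (Nat.lt_two_pow_self.le).trans hn
  have hPl : P.length + 2 ≤ N := by
    unfold bsize at hs
    omega
  have h1 : NPC.sz P ≤ N * (N * (4 * N + 6) + 12 * N + 10) + 1 := by
    have h2 := sz_le_length_mul P (N * (4 * N + 6) + 12 * N + 9) (by
      intro q hq
      obtain ⟨h3, h4, h5⟩ := WF_mem hP q hq
      have h6 := sz_lbl hnN h3 ((lsz_le hq).trans (hs.trans hsN))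
      have h7 := sz_nat' (i := q.2.1) (N := N) (by omega)
      have h8 := sz_nat' (i := q.2.2) (N := N) (by omega)
      have h9 : NPC.sz q = NPC.sz q.1 + (NPC.sz q.2.1 + NPC.sz q.2.2 + 1) + 1 := by
        obtain ⟨a, b, c⟩ := q
        rw [sz_pair, sz_pair]
      rw [h9]
      omega)
    refine h2.trans (Nat.add_le_add_right (Nat.mul_le_mul (by omega) (by omega)) 1)
  have h6 : NPC.sz ((cube n).map fun x => (bq x P).map A) ≤ N * (4 * N + 2) + 1 := by
    have h7 := sz_le_length_mul ((cube n).map fun x => (bq x P).map A) (4 * N + 1) (by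
      intro a ha
      obtain ⟨x, _, rfl⟩ := List.mem_map.1 ha
      refine (sz_listBool_le _).trans ?_
      rw [List.length_map, length_bq]
      omega)
    rw [List.length_map, length_cube] at h7
    exact h7.trans (Nat.add_le_add_right (Nat.mul_le_mul_right _ hn) 1)
  rw [sz_pair]
  omega

theorem task (h : S_BEV) : S_NPB := by
  intro A
  obtain ⟨t, htp, ht⟩ := h.2.2.2.1
  refine ⟨fun z => Hv t (z, (Qv z).map A),
    Polynomial.X * (Polynomial.X * (4 * Polynomial.X + 6) + 12 * Polynomial.X + 10) +
      Polynomial.X * (4 * Polynomial.X + 2) + 3,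
    IsFP.tt (poly_Qv h) (poly_Hv h htp), ?_⟩
  intro y
  constructor
  · rintro ⟨n, s, T, M, P, hn, hP, hs, hA, rfl⟩
    refine ⟨bits ((P, (cube n).map fun x => (bq x P).map A) : D), ?_, ?_⟩
    · rw [bits_length]
      have hlen := A2.length_pairBits (pairBits T M) (List.replicate s true)
      have hlen' := A2.length_pairBits T M
      rw [hlen', List.length_replicate, hA.1] at hlen
      have h1 := sz_cert A (n := n) (s := s)
        (N := (pairBits (pairBits T M) (List.replicate s true)).length) hP hs
        (by rw [hlen]; omega) (by rw [hlen]; omega)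
      refine h1.trans (le_of_eq ?_)
      simp only [Polynomial.eval_add, Polynomial.eval_mul, Polynomial.eval_X,
        Polynomial.eval_ofNat]
    · have h1 := complete h ht A hn hP hs hA
      simp only [Hv, Qv, yT, yM, yS, unpair_pairBits, unbits_bits, h1]
      simp
  · rintro ⟨w, -, hw⟩
    simp only [Hv, Qv, unpair_pairBits] at hw
    cases hd : unbits D w with
    | none => rw [hd] at hw; simp at hw
    | some d =>
      rw [hd] at hw
      simp only [List.cons.injEq, and_true, Bool.and_eq_true, decide_eq_true_eq] at hw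
      obtain ⟨h1, h2⟩ := hw
      obtain ⟨n, h3, h4, h5, h6, h7⟩ := sound h ht A h1
      refine ⟨n, (yS y).length, yT y, yM y, d.1, h3, h4, h5, h6, ?_⟩
      rw [← h7, h2]

end Pool.Agent.W403.PMNPB
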