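import Pool.Agent.W982.TA.Stm

/-!
# TA-G8: the sides of an empty visible triangle are edges
-/

set_option autoImplicit false

namespace Pool.Agent.W982.TA

namespace G8aux

/-- real version of `dt` -/
def rd (p q : Pt) (w : ℝ × ℝ) : ℝ :=
  ((q.1 : ℝ) - p.1) * (w.2 - p.2) - ((q.2 : ℝ) - p.2) * (w.1 - p.1)

lemma rd_emb (p q r : Pt) : rd p q (emb r) = ((dt p q r : ℤ) : ℝ) := by
  simp [rd, emb, dt]

lemma emb_inj {p q : Pt} (h : emb p = emb q) : p = q := by
  have h1 := congrArg Prod.fst h
  have h2 := congrArg Prod.snd h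
  simp only [emb] at h1 h2
  exact Prod.ext (by exact_mod_cast h1) (by exact_mod_cast h2)

/-- the abstract argument, with barycentric coordinates `al be ga` -/
lemma core (S : Finset Pt) (T : Set (Sym2 Pt)) (hT : IsTriangulation S T) (a b c : Pt)
    (hab : s(a, b) ∈ T) (z : ℝ × ℝ) (hz : z ∈ oseg a b) (hcS : c ∈ S)
    (hsee : Sees S T z c) (al be ga : ℝ × ℝ → ℝ)
    (hal : ∀ (u v : ℝ × ℝ) (l m : ℝ), l + m = 1 → al (l • u + m • v) = l * al u + m * al v)
    (hbe : ∀ (u v : ℝ × ℝ) (l m : ℝ), l + m = 1 → be (l • u + m • v) = l * be u + m * be v)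
    (hga : ∀ (u v : ℝ × ℝ) (l m : ℝ), l + m = 1 → ga (l • u + m • v) = l * ga u + m * ga v)
    (hsum : ∀ w, al w + be w + ga w = 1)
    (hinj : ∀ u v, al u = al v → be u = be v → ga u = ga v → u = v)
    (ha : al (emb a) = 1 ∧ be (emb a) = 0 ∧ ga (emb a) = 0)
    (hb : al (emb b) = 0 ∧ be (emb b) = 1 ∧ ga (emb b) = 0)
    (hc : al (emb c) = 0 ∧ be (emb c) = 0 ∧ ga (emb c) = 1)
    (hemp : ∀ r ∈ S, 0 ≤ al (emb r) → 0 ≤ be (emb r) → 0 ≤ ga (emb r) →
      r = a ∨ r = b ∨ r = c) : s(a, c) ∈ T := by
  obtain ⟨ha1, ha2, ha3⟩ := ha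
  obtain ⟨hb1, hb2, hb3⟩ := hb
  obtain ⟨hc1, hc2, hc3⟩ := hc
  have hsab := hT.seg a b hab
  have haS : a ∈ S := hsab.1
  have hne : a ≠ c := by
    rintro rfl
    rw [ha1] at hc1
    exact one_ne_zero hc1
  -- coordinates of points of the open segment `a c`
  have hac : ∀ x ∈ oseg a c, 0 < al x ∧ be x = 0 ∧ 0 < ga x := by
    rintro x ⟨l, m, hl, hm, hlm, rfl⟩
    rw [hal _ _ _ _ hlm, hbe _ _ _ _ hlm, hga _ _ _ _ hlm, ha1, ha2, ha3, hc1, hc2, hc3]
    refine ⟨by linarith, by ring, by linarith⟩
  have hmemab : ∀ w, 0 < al w → 0 < be w → ga w = 0 → w ∈ oseg a b := by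
    intro w h1 h2 h3
    have hs : al w + be w = 1 := by have := hsum w; linarith
    refine ⟨al w, be w, h1, h2, hs, ?_⟩
    apply hinj
    · rw [hal _ _ _ _ hs, ha1, hb1]; ring
    · rw [hbe _ _ _ _ hs, ha2, hb2]; ring
    · rw [hga _ _ _ _ hs, ha3, hb3, h3]; ring
  obtain ⟨t', t, ht'0, ht0, htt, rfl⟩ := hz
  have hz1 : al (t' • emb a + t • emb b) = t' := by rw [hal _ _ _ _ htt, ha1, hb1]; ring
  have hz2 : be (t' • emb a + t • emb b) = t := by rw [hbe _ _ _ _ htt, ha2, hb2]; ring
  have hz3 : ga (t' • emb a + t • emb b) = 0 := by rw [hga _ _ _ _ htt, ha3, hb3]; ring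
  set z : ℝ × ℝ := t' • emb a + t • emb b with hzdef
  have hmemzc : ∀ w, t * al w = t' * be w → 0 < be w → 0 < ga w →
      w ∈ openSegment ℝ z (emb c) := by
    intro w h1 h2 h3
    have hs : (1 - ga w) + ga w = 1 := by ring
    have hs' := hsum w
    have hal' : al w = (1 - ga w) * t' := by
      have : al w + be w = 1 - ga w := by linarith
      rw [← this]
      linear_combination (al w) * (-htt) + h1
    have hbe' : be w = (1 - ga w) * t := by
      have : al w + be w = 1 - ga w := by linarith
      rw [← this]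
      linear_combination (be w) * (-htt) - h1
    have hpos : 0 < 1 - ga w := by
      by_contra hcon
      push Not at hcon
      have : be w ≤ 0 := by rw [hbe']; exact mul_nonpos_of_nonpos_of_nonneg hcon ht0.le
      linarith
    refine ⟨1 - ga w, ga w, hpos, h3, hs, ?_⟩
    apply hinj
    · rw [hal _ _ _ _ hs, hz1, hc1, hal']; ring
    · rw [hbe _ _ _ _ hs, hz2, hc2, hbe']; ring
    · rw [hga _ _ _ _ hs, hz3, hc3]; ring
  -- the open segment `a c` contains no point of `S`
  have hseg : IsSeg S a c := by
    refine ⟨haS, hcS, hne, ?_⟩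
    intro r hr hrac
    obtain ⟨h1, h2, h3⟩ := hac _ hrac
    rcases hemp r hr h1.le h2.ge h3.le with rfl | rfl | rfl
    · rw [ha3] at h3; exact lt_irrefl _ h3
    · rw [hb2] at h2; exact one_ne_zero h2
    · rw [hc1] at h1; exact lt_irrefl _ h1
  -- the key: no edge with an endpoint on the `b` side
  have key : ∀ g h : Pt, s(g, h) ∈ T → ∀ x, x ∈ oseg a c → x ∈ oseg g h →
      0 < be (emb g) → False := by
    intro g h hgh x hxac hxgh hbg
    obtain ⟨hx1, hx2, hx3⟩ := hac x hxac
    have hgS : g ∈ S := (hT.seg g h hgh).1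
    -- the points on the way from `x` to `g`
    have hw : ∀ u : ℝ, 0 < u → u < 1 → (1 - u) • x + u • emb g ∈ oseg g h := by
      intro u hu0 hu1
      obtain ⟨l, m, hl, hm, hlm, rfl⟩ := hxgh
      refine ⟨(1 - u) * l + u, (1 - u) * m, ?_, ?_, ?_, ?_⟩
      · have : 0 < (1 - u) * l := mul_pos (by linarith) hl
        linarith
      · exact mul_pos (by linarith) hm
      · linear_combination (1 - u) * hlm
      · module
    have hwal : ∀ u : ℝ, al ((1 - u) • x + u • emb g) = (1 - u) * al x + u * al (emb g) :=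
      fun u => hal _ _ _ _ (by ring)
    have hwbe : ∀ u : ℝ, be ((1 - u) • x + u • emb g) = u * be (emb g) := by
      intro u
      rw [hbe _ _ _ _ (by ring), hx2]; ring
    have hwga : ∀ u : ℝ, ga ((1 - u) • x + u • emb g) = (1 - u) * ga x + u * ga (emb g) :=
      fun u => hga _ _ _ _ (by ring)
    -- the edge is not `a b`
    have hnab : ∀ w, w ∈ oseg a b → w ∈ oseg g h → False := by
      intro w h1 h2
      by_cases he : s(a, b) = s(g, h)
      · obtain ⟨l, m, hl, hm, hlm, hx⟩ := hxgh
        have hgx := hga (emb g) (emb h) l m hlm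
        rw [hx] at hgx
        rw [Sym2.eq_iff] at he
        rcases he with ⟨rfl, rfl⟩ | ⟨rfl, rfl⟩
        · rw [ha3, hb3] at hgx
          linarith
        · rw [ha3, hb3] at hgx
          linarith
      · exact (Set.disjoint_left.mp (hT.noncross a b g h hab hgh he)) h1 h2
    -- the function `de` vanishing on the line `z c`
    set dx : ℝ := t * al x with hdx
    have hdx0 : 0 < dx := mul_pos ht0 hx1
    set dg : ℝ := t * al (emb g) - t' * be (emb g) with hdg
    have hwde : ∀ u : ℝ, t * al ((1 - u) • x + u • emb g) - t' * be ((1 - u) • x + u • emb g) =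
        (1 - u) * dx + u * dg := by
      intro u
      rw [hwal, hwbe, hdx, hdg]; ring
    -- the point `g` is outside of the closed triangle `a z c`
    have hout : dg < 0 ∨ ga (emb g) < 0 := by
      by_contra hcon
      push Not at hcon
      obtain ⟨h1, h2⟩ := hcon
      have h3 : 0 < t * al (emb g) := by
        have : 0 < t' * be (emb g) := mul_pos ht'0 hbg
        linarith
      have h4 : 0 < al (emb g) := by
        by_contra hc'
        push Not at hc'
        have := mul_nonpos_of_nonneg_of_nonpos ht0.le hc'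
        linarith
      rcases hemp g hgS h4.le hbg.le h2 with rfl | rfl | rfl
      · rw [ha2] at hbg; exact lt_irrefl _ hbg
      · rw [hb1] at h4; exact lt_irrefl _ h4
      · rw [hc2] at hbg; exact lt_irrefl _ hbg
    -- exit through `z c`
    have exit1 : ∀ u : ℝ, 0 < u → u < 1 → (1 - u) * dx + u * dg = 0 →
        0 ≤ (1 - u) * ga x + u * ga (emb g) → False := by
      intro u hu0 hu1 h1 h2
      have hb' : 0 < be ((1 - u) • x + u • emb g) := by
        rw [hwbe]; exact mul_pos hu0 hbg
      have hd' : t * al ((1 - u) • x + u • emb g) = t' * be ((1 - u) • x + u • emb g) := by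
        have := hwde u
        linarith
      have hal' : 0 < al ((1 - u) • x + u • emb g) := by
        by_contra hc'
        push Not at hc'
        have h5 := mul_nonpos_of_nonneg_of_nonpos ht0.le hc'
        have h6 := mul_pos ht'0 hb'
        linarith
      rcases h2.lt_or_eq with h3 | h3
      · have hg' : 0 < ga ((1 - u) • x + u • emb g) := by rw [hwga]; exact h3
        exact (Set.disjoint_left.mp (hsee.1 g h hgh)) (hmemzc _ hd' hb' hg') (hw u hu0 hu1)
      · have hg' : ga ((1 - u) • x + u • emb g) = 0 := by rw [hwga]; exact h3.symm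
        exact hnab _ (hmemab _ hal' hb' hg') (hw u hu0 hu1)
    -- exit through `a z`
    have exit2 : ∀ u : ℝ, 0 < u → u < 1 → 0 ≤ (1 - u) * dx + u * dg →
        (1 - u) * ga x + u * ga (emb g) = 0 → False := by
      intro u hu0 hu1 h1 h2
      have hb' : 0 < be ((1 - u) • x + u • emb g) := by
        rw [hwbe]; exact mul_pos hu0 hbg
      have hd' : t' * be ((1 - u) • x + u • emb g) ≤ t * al ((1 - u) • x + u • emb g) := by
        have := hwde u
        linarith
      have hal' : 0 < al ((1 - u) • x + u • emb g) := by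
        by_contra hc'
        push Not at hc'
        have h5 := mul_nonpos_of_nonneg_of_nonpos ht0.le hc'
        have h6 := mul_pos ht'0 hb'
        linarith
      have hg' : ga ((1 - u) • x + u • emb g) = 0 := by rw [hwga]; exact h2
      exact hnab _ (hmemab _ hal' hb' hg') (hw u hu0 hu1)
    -- the exit times
    have time : ∀ p q : ℝ, 0 < p → q < 0 → 0 < p / (p - q) ∧ p / (p - q) < 1 ∧
        (1 - p / (p - q)) * p + p / (p - q) * q = 0 := by
      intro p q hp hq
      have hpq : 0 < p - q := by linarith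
      refine ⟨div_pos hp hpq, by rw [div_lt_one hpq]; linarith, ?_⟩
      field_simp
      ring
    by_cases hd : dg < 0
    · obtain ⟨hu0, hu1, hu⟩ := time dx dg hdx0 hd
      by_cases hgn : 0 ≤ (1 - dx / (dx - dg)) * ga x + dx / (dx - dg) * ga (emb g)
      · exact exit1 _ hu0 hu1 hu hgn
      · push Not at hgn
        -- then `ga` vanishes before
        have hgg : ga (emb g) < 0 := by
          by_contra hcon
          push Not at hcon
          have h1 : 0 ≤ (1 - dx / (dx - dg)) * ga x := mul_nonneg (by linarith) hx3.le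
          have h2 : 0 ≤ dx / (dx - dg) * ga (emb g) := mul_nonneg hu0.le hcon
          linarith
        obtain ⟨hv0, hv1, hv⟩ := time (ga x) (ga (emb g)) hx3 hgg
        refine exit2 _ hv0 hv1 ?_ hv
        -- compare the times
        set u := dx / (dx - dg)
        set v := ga x / (ga x - ga (emb g))
        have huv : v < u := by
          by_contra hcon
          push Not at hcon
          have h1 : 0 ≤ (v - u) * (ga x - ga (emb g)) := mul_nonneg (by linarith) (by linarith)
          nlinarith
        have h1 : 0 ≤ (u - v) * (dx - dg) := mul_nonneg (by linarith) (by linarith)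
        nlinarith
    · have hgg : ga (emb g) < 0 := hout.resolve_left hd
      push Not at hd
      obtain ⟨hv0, hv1, hv⟩ := time (ga x) (ga (emb g)) hx3 hgg
      refine exit2 _ hv0 hv1 ?_ hv
      have h1 : 0 ≤ (1 - ga x / (ga x - ga (emb g))) * dx := mul_nonneg (by linarith) hdx0.le
      have h2 : 0 ≤ ga x / (ga x - ga (emb g)) * dg := mul_nonneg hv0.le hd
      linarith
  -- collinear edges
  have coll : ∀ g h : Pt, s(g, h) ∈ T → ∀ x, x ∈ oseg a c → x ∈ oseg g h →
      be (emb g) = 0 → be (emb h) = 0 → al (emb g) < al (emb h) → s(a, c) = s(g, h) := by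
    intro g h hgh x hxac hxgh hbg hbh hlt
    obtain ⟨hx1, hx2, hx3⟩ := hac x hxac
    obtain ⟨hgS, hhS, hghne, hghe⟩ := hT.seg g h hgh
    have hsg := hsum (emb g)
    have hsh := hsum (emb h)
    have hsx := hsum x
    obtain ⟨l, m, hl, hm, hlm, hx⟩ := hxgh
    have hax : al x = l * al (emb g) + m * al (emb h) := by rw [← hx]; exact hal _ _ _ _ hlm
    have h1 : al (emb g) < al x := by
      have : al x = al (emb g) + m * (al (emb h) - al (emb g)) := by
        rw [hax]; linear_combination (al (emb g)) * hlm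
      rw [this]
      have := mul_pos hm (sub_pos.mpr hlt)
      linarith
    have h2 : al x < al (emb h) := by
      have : al x = al (emb h) - l * (al (emb h) - al (emb g)) := by
        rw [hax]; linear_combination (al (emb h)) * hlm
      rw [this]
      have := mul_pos hl (sub_pos.mpr hlt)
      linarith
    -- a point of the line between the bounds is in the segment `a c`
    have memac : ∀ w, be w = 0 → 0 < al w → al w < 1 → w ∈ oseg a c := by
      intro w h3 h4 h5
      have hs := hsum w
      have hs' : al w + ga w = 1 := by linarith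
      refine ⟨al w, ga w, h4, by linarith, hs', ?_⟩
      apply hinj
      · rw [hal _ _ _ _ hs', ha1, hc1]; ring
      · rw [hbe _ _ _ _ hs', ha2, hc2, h3]; ring
      · rw [hga _ _ _ _ hs', ha3, hc3]; ring
    have memgh : ∀ w, be w = 0 → al (emb g) < al w → al w < al (emb h) → w ∈ oseg g h := by
      intro w h3 h4 h5
      have hs := hsum w
      have hd : 0 < al (emb h) - al (emb g) := by linarith
      have hs' : (al (emb h) - al w) / (al (emb h) - al (emb g)) +
          (al w - al (emb g)) / (al (emb h) - al (emb g)) = 1 := by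
        field_simp
        ring
      refine ⟨(al (emb h) - al w) / (al (emb h) - al (emb g)),
        (al w - al (emb g)) / (al (emb h) - al (emb g)), div_pos (by linarith) hd,
        div_pos (by linarith) hd, hs', ?_⟩
      have e1 : al ((((al (emb h) - al w) / (al (emb h) - al (emb g))) • emb g +
        ((al w - al (emb g)) / (al (emb h) - al (emb g))) • emb h)) = al w := by
        rw [hal _ _ _ _ hs']
        field_simp
        ring
      have e2 : be ((((al (emb h) - al w) / (al (emb h) - al (emb g))) • emb g +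
        ((al w - al (emb g)) / (al (emb h) - al (emb g))) • emb h)) = be w := by
        rw [hbe _ _ _ _ hs', hbg, hbh, h3]
        ring
      refine hinj _ _ e1 e2 ?_
      have := hsum ((((al (emb h) - al w) / (al (emb h) - al (emb g))) • emb g +
        ((al w - al (emb g)) / (al (emb h) - al (emb g))) • emb h))
      rw [e1, e2] at this
      linarith
    have hgle : al (emb g) ≤ 0 := by
      by_contra hcon
      push Not at hcon
      exact hseg.2.2.2 g hgS (memac _ hbg hcon (by linarith))
    have hhge : 1 ≤ al (emb h) := by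
      by_contra hcon
      push Not at hcon
      exact hseg.2.2.2 h hhS (memac _ hbh (by linarith) hcon)
    have hhle : al (emb h) ≤ 1 := by
      by_contra hcon
      push Not at hcon
      exact hghe a haS (memgh _ ha2 (by rw [ha1]; linarith) (by rw [ha1]; exact hcon))
    have hgge : 0 ≤ al (emb g) := by
      by_contra hcon
      push Not at hcon
      exact hghe c hcS (memgh _ hc2 (by rw [hc1]; exact hcon) (by rw [hc1]; linarith))
    have eg : g = c := by
      apply emb_inj
      apply hinj
      · rw [hc1]; linarith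
      · rw [hc2, hbg]
      · rw [hc3]; linarith
    have eh : h = a := by
      apply emb_inj
      apply hinj
      · rw [ha1]; linarith
      · rw [ha2, hbh]
      · rw [ha3]; linarith
    rw [eg, eh]
    exact Sym2.eq_swap
  apply hT.maximal a c hseg
  intro g h hgh hneq
  rw [Set.disjoint_left]
  intro x hxac hxgh
  have hgh' : s(h, g) ∈ T := by rw [Sym2.eq_swap]; exact hgh
  have hxhg : x ∈ oseg h g := by
    rw [oseg, openSegment_symm]; exact hxgh
  obtain ⟨hx1, hx2, hx3⟩ := hac x hxac
  rcases lt_trichotomy 0 (be (emb g)) with hg | hg | hg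
  · exact key g h hgh x hxac hxgh hg
  · rcases lt_trichotomy 0 (be (emb h)) with hh | hh | hh
    · exact key h g hgh' x hxac hxhg hh
    · rcases lt_trichotomy (al (emb g)) (al (emb h)) with hl | hl | hl
      · exact hneq (coll g h hgh x hxac hxgh hg.symm hh.symm hl)
      · have hsg := hsum (emb g)
        have hsh := hsum (emb h)
        apply (hT.seg g h hgh).2.2.1
        apply emb_inj
        apply hinj _ _ hl
        · rw [← hg, ← hh]
        · linarith
      · apply hneq
        rw [coll h g hgh' x hxac hxhg hh.symm hg.symm hl]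
        exact Sym2.eq_swap
    · -- impossible: `be x = m * be h < 0`
      obtain ⟨l, m, hl, hm, hlm, hx⟩ := hxgh
      have hbx : be x = l * be (emb g) + m * be (emb h) := by rw [← hx]; exact hbe _ _ _ _ hlm
      have := mul_neg_of_pos_of_neg hm hh
      rw [← hg, hx2] at hbx
      linarith
  · -- then `0 < be h`
    obtain ⟨l, m, hl, hm, hlm, hx⟩ := id hxgh
    have hbx : be x = l * be (emb g) + m * be (emb h) := by rw [← hx]; exact hbe _ _ _ _ hlm
    have h1 := mul_neg_of_pos_of_neg hl hg
    have h2 : 0 < be (emb h) := by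
      by_contra hcon
      push Not at hcon
      have := mul_nonpos_of_nonneg_of_nonpos hm.le hcon
      linarith
    exact key h g hgh' x hxac hxhg h2

lemma main (S : Finset Pt) (T : Set (Sym2 Pt)) (hT : IsTriangulation S T) (a b c : Pt)
    (hab : s(a, b) ∈ T) (z : ℝ × ℝ) (hz : z ∈ oseg a b) (hcS : c ∈ S)
    (hsee : Sees S T z c) (hD : dt a b c ≠ 0)
    (hemp : ∀ r ∈ S, 0 ≤ dt b c r * dt a b c → 0 ≤ dt c a r * dt a b c →
      0 ≤ dt a b r * dt a b c → r = a ∨ r = b ∨ r = c) : s(a, c) ∈ T := by
  have hDr : ((dt a b c : ℤ) : ℝ) ≠ 0 := by exact_mod_cast hD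
  have hDr' : ((b.1 : ℝ) - a.1) * (c.2 - a.2) - ((b.2 : ℝ) - a.2) * (c.1 - a.1) ≠ 0 := by
    have := hDr
    simp only [dt] at this
    push_cast at this
    exact this
  have hsgn : ∀ p q r : Pt, 0 ≤ rd p q (emb r) / ((dt a b c : ℤ) : ℝ) →
      0 ≤ dt p q r * dt a b c := by
    intro p q r h
    rw [rd_emb] at h
    have h1 : (0 : ℝ) ≤ ((dt p q r : ℤ) : ℝ) * ((dt a b c : ℤ) : ℝ) := by
      have h2 : ((dt p q r : ℤ) : ℝ) * ((dt a b c : ℤ) : ℝ) =
          (((dt p q r : ℤ) : ℝ) / ((dt a b c : ℤ) : ℝ)) * ((dt a b c : ℤ) : ℝ) ^ 2 := by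
        field_simp
      rw [h2]
      exact mul_nonneg h (sq_nonneg _)
    exact_mod_cast h1
  have haff : ∀ (p q : Pt) (u v : ℝ × ℝ) (l m : ℝ), l + m = 1 →
      rd p q (l • u + m • v) / ((dt a b c : ℤ) : ℝ) =
      l * (rd p q u / ((dt a b c : ℤ) : ℝ)) + m * (rd p q v / ((dt a b c : ℤ) : ℝ)) := by
    intro p q u v l m hlm
    have h1 : rd p q (l • u + m • v) = l * rd p q u + m * rd p q v := by
      obtain rfl : l = 1 - m := by linarith
      simp only [rd, Prod.fst_add, Prod.snd_add, Prod.smul_fst, Prod.smul_snd, smul_eq_mul]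
      ring
    rw [h1]
    ring
  refine core S T hT a b c hab z hz hcS hsee
    (fun w => rd b c w / ((dt a b c : ℤ) : ℝ)) (fun w => rd c a w / ((dt a b c : ℤ) : ℝ))
    (fun w => rd a b w / ((dt a b c : ℤ) : ℝ)) (haff b c) (haff c a) (haff a b)
    ?_ ?_ ?_ ?_ ?_ ?_
  · intro w
    simp only [rd, dt]
    push_cast
    field_simp
    ring
  · intro u v h1 h2 h3
    have e1 : rd b c u = rd b c v := by
      simpa [div_left_inj' hDr] using h1
    have e2 : rd c a u = rd c a v := by
      simpa [div_left_inj' hDr] using h2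
    have e3 : rd a b u = rd a b v := by
      simpa [div_left_inj' hDr] using h3
    simp only [rd] at e1 e2 e3
    apply Prod.ext
    · apply mul_left_cancel₀ hDr'
      linear_combination ((c.1 : ℝ) - a.1) * e3 + ((b.1 : ℝ) - a.1) * e2
    · apply mul_left_cancel₀ hDr'
      linear_combination ((c.2 : ℝ) - a.2) * e3 + ((b.2 : ℝ) - a.2) * e2
  · refine ⟨?_, ?_, ?_⟩ <;> simp only [rd, dt, emb] <;> push_cast
    · rw [div_eq_one_iff_eq hDr']; ring
    · rw [div_eq_zero_iff]; left; ring
    · rw [div_eq_zero_iff]; left; ring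
  · refine ⟨?_, ?_, ?_⟩ <;> simp only [rd, dt, emb] <;> push_cast
    · rw [div_eq_zero_iff]; left; ring
    · rw [div_eq_one_iff_eq hDr']; ring
    · rw [div_eq_zero_iff]; left; ring
  · refine ⟨?_, ?_, ?_⟩ <;> simp only [rd, dt, emb] <;> push_cast
    · rw [div_eq_zero_iff]; left; ring
    · rw [div_eq_zero_iff]; left; ring
    · rw [div_eq_one_iff_eq hDr']
  · intro r hr h1 h2 h3
    exact hemp r hr (hsgn _ _ _ h1) (hsgn _ _ _ h2) (hsgn _ _ _ h3)

end G8aux

theorem g8 : TaskG8 := by
  intro S T hT a b hab z hz c hcS hD hsee hemp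
  constructor
  · refine G8aux.main S T hT a b c hab z hz hcS hsee hD.ne' ?_
    intro r hr h1 h2 h3
    exact hemp r hr ⟨nonneg_of_mul_nonneg_left h3 hD, nonneg_of_mul_nonneg_left h1 hD,
      nonneg_of_mul_nonneg_left h2 hD⟩
  · have hD' : dt b a c = - dt a b c := by simp only [dt]; ring
    have hba : s(b, a) ∈ T := by rw [Sym2.eq_swap]; exact hab
    have hz' : z ∈ oseg b a := by rw [oseg, openSegment_symm]; exact hz
    refine G8aux.main S T hT b a c hba z hz' hcS hsee (by rw [hD']; exact neg_ne_zero.mpr hD.ne') ?_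
    intro r hr h1 h2 h3
    have e1 : dt a c r * dt b a c = dt c a r * dt a b c := by simp only [dt]; ring
    have e2 : dt c b r * dt b a c = dt b c r * dt a b c := by simp only [dt]; ring
    have e3 : dt b a r * dt b a c = dt a b r * dt a b c := by simp only [dt]; ring
    rw [e1] at h1
    rw [e2] at h2
    rw [e3] at h3
    rcases hemp r hr ⟨nonneg_of_mul_nonneg_left h3 hD, nonneg_of_mul_nonneg_left h2 hD,
      nonneg_of_mul_nonneg_left h1 hD⟩ with h | h | h
    · exact Or.inr (Or.inl h)
    · exact Or.inl h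
    · exact Or.inr (Or.inr h)

end Pool.Agent.W982.TA
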